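import Pool.Agent.Lib.MP_01def2_lc.Main

/-!
# Unconditional constant-depth inapproximability of the dominating number

For every function `f`, no constant-depth family of circuits of size `n^{o(k)}` approximates the
dominating number with ratio `f(k)`. No hypothesis (such as AC0-ETH) is assumed.

The definitions used in the statement are in `Pool/Agent/Lib/MP_01def2_lc/Defs.lean`.

Proof outline. For a random sparse pattern with `k` scopes of constant arity over `k` variables,
which expands (`Pattern`), consider random instances of the corresponding constraint problem,
where each tuple is present with probability `1/(2n)`. By the Furst-Saxe-Sipser lemma (`Junta`)
and induction on depth (`DepthInd`), every (partial) gate of a constant-depth circuit becomes a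
junta of constant size under a random restriction with star probability `n^{-1/(2k)}`, hence is
rarely sensitive to a planted sub-pattern of intermediate size (`Plant`); building gates up one
wire at a time (`Seq`) it follows that small circuits do not notice a planted solution (`Core`).
A gap-producing reduction that is a projection (`Gap`) transfers this to the dominating number
(`Main`).
-/

namespace Pool.Agent.Results.MP_01def2_lc.UnconditionalInapprox

open Pool.Agent.Lib.MP_01def2_lc

theorem result (f : ℕ → ℕ) (C : (n k : ℕ) → Circuit (Pairs n))
    (hC : IsConstantDepthOfSizeLittleO C) : ¬ ApproximatesDominatingNumber C f :=
  main f C hC

end Pool.Agent.Results.MP_01def2_lc.UnconditionalInapprox
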